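import Pool.Agent.H.MP_55ecfc_an.A

namespace Pool.Agent.Results.MP_55ecfc_an.Yes
open Set Filter Topology

theorem result (c ξ : ℝ) (hc : 0 < c ^ 2) (hc2 : c ^ 2 < 2) (hξ : ξ < c ^ 4 / 4)
    (z : ℝ → ℝ) (hz : ContDiff ℝ 4 z)
    (he : ∀ t, iteratedDeriv 4 z t + c ^ 2 * iteratedDeriv 2 z t + max (z t + 1) 0 -
      ξ * max (-(z t + 1)) 0 - 1 = 0)
    (h0 : Tendsto z (atBot ⊔ atTop) (𝓝 0)) (h1 : Tendsto (deriv z) (atBot ⊔ atTop) (𝓝 0))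
    (h : (∃ a b, a < b ∧ {t | z t < -1} = Ioo a b) ∨ {t | z t = -1}.ncard = 2) :
    ∃ s, ∀ t, z (s + t) = z (s - t) :=
  H.MP_55ecfc_an.main c ξ hc hc2 hξ z hz he h0 h1 h

end Pool.Agent.Results.MP_55ecfc_an.Yes
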